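import Mathlib
import Pool.Agent.KS6_33.SG.Final

/-!
# MP_7578b2_co, Q1: there is no strongly universal countable `d`-sphere graph, for every `d > 1`

`discs d` is the family of the intersections of the closed unit ball of `ℝ^(d+1)` with the affine
hyperplanes, `IsSphereGraph d G` says that `G` is isomorphic to the intersection graph of a
subfamily of `discs d`, and `HasStronglyUniversal d` that some countable `d`-sphere graph contains
every countable `d`-sphere graph as an induced subgraph (definitions in
`Pool/Graph/R_seed8/V11167/SphDefs.lean`).
-/

namespace Pool.Agent.Results.MP_7578b2_co.AllDimensions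

open Pool.Agent.V11167.Sph

/-- (1) For every `d > 1` the class of countable `d`-sphere graphs has no strongly universal
element. (2) More generally, for every countable family of countable sphere graphs, of arbitrary
dimensions `d i`, there is a countable graph `G` which is an `e`-sphere graph for all `e ≥ 2` at
the same time and which is an induced subgraph of no member of the family. -/
theorem result :
    (∀ d : ℕ, 1 < d → ¬ HasStronglyUniversal d) ∧
    ∀ (I : Type) [Countable I] (d : I → ℕ) (V : I → Type) [∀ i, Countable (V i)]
      (U : ∀ i, SimpleGraph (V i)), (∀ i, IsSphereGraph (d i) (U i)) →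
      ∃ (W : Type) (_ : Countable W) (G : SimpleGraph W), (∀ e, 2 ≤ e → IsSphereGraph e G) ∧
        ∀ i, IsEmpty (G ↪g U i) :=
  ⟨fun d hd => KS6_33.SG.no_universal_all d hd,
    fun I _ d V _ U hU => KS6_33.SG.no_family I d V U hU⟩

end Pool.Agent.Results.MP_7578b2_co.AllDimensions
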